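import Pool.Agent.H31.CZ.T
import Pool.Agent.H34.ZF.BL
import Pool.Agent.H31.ZN.FAR
import Pool.Agent.H47.CT.ZWT

/-!
Board cz, row TBL: few pairs of a form and a window with a large value of the twisted L-function.
-/

set_option autoImplicit false

namespace Pool.Agent.H31.CZ

open MeasureTheory Pool.Agent.H27.L1.H34.GM Pool.Agent.H27.L1.H34.GZ Pool.Agent.H27.L1.H34.GU
  Pool.Agent.H27.L1.H34.GA
open Pool.Agent.H27.L1.H68.GHY Pool.Agent.H27.L1.H34.GHY Pool.Agent.H27.L1.H34.GZZ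
open Pool.Agent.H27.L1.H68.GHK (ip rt Hn OrS)
open Pool.Agent.H27.ZF (Fam Eul Sq Dp DB Bk)
open Pool.Agent.H31.CT (Q3 Tw)
open Pool.Agent.H47.CT (Q3_scale lip_le win2)

/-- the number of the windows -/
lemma cardw {H : ℝ} (hH : 1 ≤ H) (t0 : ℝ) :
    (((Finset.Icc ⌈t0 - H⌉ ⌊t0 + H⌋ : Finset ℤ).card : ℕ) : ℝ) ≤ 3 * H := by
  rw [Int.card_Icc]
  rcases le_or_gt 0 (⌊t0 + H⌋ + 1 - ⌈t0 - H⌉) with h | h
  · have h1 : (((⌊t0 + H⌋ + 1 - ⌈t0 - H⌉).toNat : ℕ) : ℝ) =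
        ((⌊t0 + H⌋ + 1 - ⌈t0 - H⌉ : ℤ) : ℝ) := by
      exact_mod_cast Int.toNat_of_nonneg h
    rw [h1]
    push_cast
    have h2 := Int.floor_le (t0 + H)
    have h3 := Int.le_ceil (t0 - H)
    linarith
  · rw [Int.toNat_of_nonpos h.le]
    simp only [Nat.cast_zero]
    linarith

open Classical in
/-- a filter of the windows -/
lemma cardf {H : ℝ} (hH : 1 ≤ H) (t0 : ℝ) (p : ℤ → Prop) :
    ((((Finset.Icc ⌈t0 - H⌉ ⌊t0 + H⌋ : Finset ℤ).filter p).card : ℕ) : ℝ) ≤ 3 * H :=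
  (Nat.cast_le.2 (Finset.card_filter_le _ _)).trans (cardw hH t0)

open Classical in
theorem pf_BLT (h_LSF : Pool.Agent.H27.ZF.T_LSF) : T_BLT := by
  intro m d B ε hm1 hd hd1 hB hε
  obtain ⟨CW, hCW, hwt⟩ := Pool.Agent.H34.ZF.wt_sum h_LSF m ε hm1 hε
  obtain ⟨σ2, hσ2, hfar⟩ := Pool.Agent.H31.ZN.c_FAR m hm1
  obtain ⟨σ1, hσ1⟩ : ∃ σ1 : ℝ, σ1 = max B σ2 := ⟨_, rfl⟩
  have hσB : B ≤ σ1 := by rw [hσ1]; exact le_max_left _ _
  have hσσ : σ2 ≤ σ1 := by rw [hσ1]; exact le_max_right _ _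
  obtain ⟨C0, hC0, hstr⟩ := Pool.Agent.H34.ZN.c_STR m (2 * (m ^ 2 + 1)) hm1 d σ1 B hd hd1
    (hσ2.trans hσσ) (by linarith)
  obtain ⟨e, he, he0, he1, hee⟩ : ∃ e : ℝ, e = min ε 1 ∧ 0 < e ∧ e ≤ 1 ∧ e ≤ ε :=
    ⟨min ε 1, rfl, lt_min hε one_pos, min_le_right _ _, min_le_left _ _⟩
  obtain ⟨C1, hC1, h1⟩ := Pool.Agent.H31.CT.c_LVT m hm1 e he0
  obtain ⟨C2, hC2d⟩ : ∃ C2 : ℝ, C2 = 2 ^ (3 * (m ^ 2 + 1) + 3) * C1 := ⟨_, rfl⟩
  have hC2 : 0 < C2 := by rw [hC2d]; positivity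
  refine ⟨C2 * C0 ^ 2 + 2 * CW * C0 ^ 2, by positivity, ?_⟩
  intro N _ T D hS B0 H U hB0 hH hHU S _ _ F lam W hF c M _ G lamG hc hG L hL t0 ht0 A hA
  have hN1 : 1 ≤ N := by
    have := hS.two_le
    omega
  have hN1' : (1 : ℝ) ≤ N := by exact_mod_cast hN1
  have hU1 : 1 ≤ U := hH.trans hHU
  have hZ1 : 1 ≤ (N : ℝ) * B0 * U := by
    have : 1 ≤ (N : ℝ) * B0 := one_le_mul_of_one_le_of_one_le hN1' hB0
    exact one_le_mul_of_one_le_of_one_le this hU1
  have hQ0 : 0 ≤ Q3 m N B0 H U := by unfold Q3; positivity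
  have hpe : ((N : ℝ) * B0 * U) ^ e ≤ ((N : ℝ) * B0 * U) ^ ε :=
    Real.rpow_le_rpow_of_exponent_le hZ1 hee
  have hA0 : 0 < A := by linarith
  obtain ⟨Y, hY⟩ : ∃ Y : ℝ, Y = ((N : ℝ) * B0 * U) ^ ε * Q3 m N B0 H U := ⟨_, rfl⟩
  have hY0 : 0 ≤ Y := by
    rw [hY]
    positivity
  rw [show (C2 * C0 ^ 2 + 2 * CW * C0 ^ 2) * ((N : ℝ) * B0 * U) ^ ε * Q3 m N B0 H U =
    (C2 * C0 ^ 2 + 2 * CW * C0 ^ 2) * Y by rw [hY]; ring]
  rcases lt_or_ge A C0 with hcase | hcase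
  · -- small `A`: the trivial bound
    have h2 : ∑ i, W i * (((Finset.Icc ⌈t0 - H⌉ ⌊t0 + H⌋).filter (fun k : ℤ => ∃ s : ℂ,
        1 / 2 + d ≤ s.re ∧ s.re ≤ B ∧ |s.im - k| ≤ B ∧ A < ‖L i s‖)).card : ℝ) ≤
        2 * ∑ i, W i * (2 * H) := by
      rw [Finset.mul_sum]
      refine Finset.sum_le_sum fun i _ => ?_
      have h3 := cardf hH t0 (fun k : ℤ => ∃ s : ℂ,
        1 / 2 + d ≤ s.re ∧ s.re ≤ B ∧ |s.im - k| ≤ B ∧ A < ‖L i s‖)
      calc W i * _ ≤ W i * (3 * H) := mul_le_mul_of_nonneg_left h3 (hF.nn i)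
        _ ≤ W i * (2 * (2 * H)) := mul_le_mul_of_nonneg_left (by linarith) (hF.nn i)
        _ = _ := by ring
    have h3 := hwt N T D hS H hH S F lam W hF
    have h4 : CW * ((N : ℝ) * H) ^ ε * ((N : ℝ) ^ m * H ^ (m ^ 2)) ≤ CW * Y := by
      rw [hY, mul_assoc]
      refine mul_le_mul_of_nonneg_left ?_ hCW.le
      refine mul_le_mul ?_ ?_ (by positivity) (by positivity)
      · refine Real.rpow_le_rpow (by positivity) ?_ hε.le
        have h5 : (N : ℝ) ≤ N * B0 := le_mul_of_one_le_right (by linarith) hB0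
        exact mul_le_mul h5 hHU (by linarith) (by positivity)
      · unfold Q3
        have : 0 ≤ B0 ^ ((m : ℝ) / 2) * U ^ ((m : ℝ) ^ 2 / 2) := by positivity
        linarith
    rw [le_div_iff₀ (by positivity)]
    have h5 : A ^ 2 ≤ C0 ^ 2 := pow_le_pow_left₀ hA0.le hcase.le 2
    have h6 : (0 : ℝ) ≤ C2 * C0 ^ 2 * Y := by positivity
    calc _ ≤ (2 * (CW * Y)) * C0 ^ 2 := by
          refine mul_le_mul (h2.trans (by linarith)) h5 (by positivity) (by positivity)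
      _ ≤ _ := by nlinarith
  · obtain ⟨A', hA'⟩ : ∃ A' : ℝ, A' = A / C0 := ⟨_, rfl⟩
    have hA'1 : 1 ≤ A' := by
      rw [hA', le_div_iff₀ hC0, one_mul]
      exact hcase
    -- the second moment at the scale `R`
    have hall : ∀ R : ℝ, 1 ≤ R → ∀ J : S → Finset ℝ,
        (∀ i, ∀ a ∈ J i, ∀ b ∈ J i, a ≠ b → 1 ≤ |a - b|) →
        (∀ i, ∀ t ∈ J i, |t - t0| ≤ R * H) →
        ∑ i ∈ (Finset.univ : Finset S), W i * ∑ t ∈ J i,
          (fun i (u : ℝ) => ‖L i (1 / 2 + u * Complex.I)‖) i t ^ 2 ≤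
          (C1 * (((N : ℝ) * B0 * U) ^ ε * Q3 m N B0 H U)) * R ^ (m ^ 2 + 1) := by
      intro R hR J hJ hJR
      have hR0 : 0 < R := by linarith
      have hRH : H ≤ R * H := le_mul_of_one_le_left (by linarith) hR
      have hRU : U ≤ R * U := le_mul_of_one_le_left (by linarith) hR
      obtain ⟨L', hL', hb'⟩ := h1 N T D hS B0 (R * H) (R * U) hB0 (hH.trans hRH)
        (mul_le_mul_of_nonneg_left hHU hR0.le) S F lam W
        (fun i => ⟨(hF.cus i).1, lip_le (hF.cus i).2 (by linarith) hRH⟩) hF.orth hF.nn hF.wt c M G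
        lamG hc
        ⟨hG.sys, fun i => ⟨(hG.form i).1, lip_le (hG.form i).2.1 (by linarith) hRU,
          (hG.form i).2.2⟩, hG.tw⟩
      have e1 : ∀ i, L i = L' i := fun i => Pool.Agent.H27.L1.H34.GHK.isl_eq (hL i) (hL' i)
      simp only [e1]
      have ht : R * H + |t0| ≤ R * U := by
        have h3 : |t0| ≤ R * |t0| := le_mul_of_one_le_left (abs_nonneg _) hR
        calc R * H + |t0| ≤ R * H + R * |t0| := by linarith
          _ = R * (H + |t0|) := by ring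
          _ ≤ R * U := mul_le_mul_of_nonneg_left ht0 hR0.le
      refine (hb' t0 J ht hJ hJR).trans ?_
      have h4 : ((N : ℝ) * B0 * (R * U)) ^ e ≤ ((N : ℝ) * B0 * U) ^ ε * R := by
        rw [show (N : ℝ) * B0 * (R * U) = ((N : ℝ) * B0 * U) * R by ring,
          Real.mul_rpow (by positivity) hR0.le]
        have h5 : R ^ e ≤ R := by
          calc R ^ e ≤ R ^ (1 : ℝ) := Real.rpow_le_rpow_of_exponent_le hR he1
            _ = R := Real.rpow_one R
        gcongr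
      have h5 : 0 ≤ Q3 m N B0 (R * H) (R * U) := by unfold Q3; positivity
      calc C1 * ((N : ℝ) * B0 * (R * U)) ^ e * Q3 m N B0 (R * H) (R * U) ≤
          C1 * (((N : ℝ) * B0 * U) ^ ε * R) * (R ^ (m ^ 2) * Q3 m N B0 H U) := by
            gcongr
            exact Q3_scale hB0 hH hU1 hR
        _ = _ := by ring
    have hwin := win2 (Finset.univ : Finset S) W
      (fun i (u : ℝ) => ‖L i (1 / 2 + u * Complex.I)‖) H t0
      (C1 * (((N : ℝ) * B0 * U) ^ ε * Q3 m N B0 H U)) A' (m ^ 2 + 1) (m ^ 2 + 1)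
      (fun i _ => hF.nn i) (fun i u => norm_nonneg _) hH (by positivity) (by linarith)
      (by nlinarith) hall
    calc ∑ i, W i * (((Finset.Icc ⌈t0 - H⌉ ⌊t0 + H⌋).filter (fun k : ℤ => ∃ s : ℂ,
          1 / 2 + d ≤ s.re ∧ s.re ≤ B ∧ |s.im - k| ≤ B ∧ A < ‖L i s‖)).card : ℝ) ≤
        ∑ i, W i * (((Finset.Icc ⌈t0 - H⌉ ⌊t0 + H⌋ : Finset ℤ).filter
        (fun k : ℤ => ∃ u : ℝ, A' * (1 + |u - k|) ^ (2 * (m ^ 2 + 1)) <
          ‖L i (1 / 2 + u * Complex.I)‖)).card : ℝ) := by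
          refine Finset.sum_le_sum fun i _ => mul_le_mul_of_nonneg_left ?_ (hF.nn i)
          refine Nat.cast_le.2 (Finset.card_le_card ?_)
          intro k hk
          rw [Finset.mem_filter] at hk ⊢
          refine ⟨hk.1, ?_⟩
          obtain ⟨s, hs1, hs2, hs3, hs4⟩ := hk.2
          have hk1 := Finset.mem_Icc.1 hk.1
          rw [Int.ceil_le, Int.le_floor] at hk1
          have hkU : |(k : ℝ)| ≤ U := by
            have h6 : |(k : ℝ) - t0| ≤ H := by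
              rw [abs_le]
              constructor <;> linarith [hk1.1, hk1.2]
            have h7 := abs_add_le ((k : ℝ) - t0) t0
            rw [sub_add_cancel] at h7
            linarith
          by_contra hcon
          simp only [not_exists, not_lt] at hcon
          have hnz : NZ (G i) := Pool.Agent.H69.ZN.nz_of_one (hG.sys i).1 (hG.form i).2.2
          have h2 := hstr (M i) T D (hG.sys i).1 (G i) (lamG i) U (hG.form i).1 (hG.form i).2.2
            (hG.form i).2.1 hU1 (L i) (hL i) (fun w hw => by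
              have h3 := hfar (M i) T D (hG.sys i).1 (G i) (lamG i) (hG.form i).1 hnz (L i) (hL i) w
                (hσσ.trans hw)
              have h4 : ‖L i w‖ ≤ ‖L i w - 1‖ + ‖(1 : ℂ)‖ := by
                have := norm_add_le (L i w - 1) 1
                rwa [sub_add_cancel] at this
              rw [norm_one] at h4
              linarith) k A' hkU hA'1 hcon s hs1 (hs2.trans hσB) hs3
          have h3 : C0 * A' = A := by
            rw [hA']
            field_simp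
          rw [h3] at h2
          linarith
      _ ≤ 2 ^ (3 * (m ^ 2 + 1) + 3) * (C1 * (((N : ℝ) * B0 * U) ^ ε * Q3 m N B0 H U)) / A' ^ 2 :=
          hwin
      _ = C2 * C0 ^ 2 * Y / A ^ 2 := by
          rw [hA', div_pow, hC2d, hY]
          field_simp
      _ ≤ _ := by
          have h7 : C2 * C0 ^ 2 ≤ C2 * C0 ^ 2 + 2 * CW * C0 ^ 2 := by
            have : 0 ≤ 2 * CW * C0 ^ 2 := by positivity
            linarith
          gcongr

end Pool.Agent.H31.CZ
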