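import Pool.Agent.H31.CT.LVT
import Pool.Agent.H27.ZF.TB

/-!
Board cz (MP_52e316_nt), targets: the zeros and the size of the twisted L-functions to the right of the critical
line, one level.
-/

set_option autoImplicit false

namespace Pool.Agent.H31.CZ

open MeasureTheory Pool.Agent.H27.L1.H34.GM Pool.Agent.H27.L1.H34.GZ Pool.Agent.H27.L1.H34.GU
  Pool.Agent.H27.L1.H34.GA
open Pool.Agent.H27.ZF (Fam Eul Sq Dp DB Bk)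
open Pool.Agent.H31.CT (Q3 Tw)

open Classical in
/-- the windows with large Dirichlet polynomials, abstract form: the large sieve is a hypothesis -/
def T_BDT : Prop := ∀ (m : ℕ) (B ε : ℝ), 1 ≤ m → 1 ≤ B → 0 < ε → ∃ C : ℝ, 0 < C ∧
  ∀ (N : ℕ) (P K : ℝ), 1 ≤ N → 1 ≤ P → 0 ≤ K → ∀ (S : Type) [Fintype S] (lam : S → ℕ → ℂ)
    (W : S → ℝ), (∀ i, 0 ≤ W i) →
  (∀ r : ℕ, (2 : ℝ) ^ r ≤ N * P ^ m → ∀ b : ℕ → ℂ, (∀ n, ‖b n‖ ≤ 1) →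
    ∀ σ τ : ℝ, 0 ≤ σ → σ ≤ B + 1 →
    ∑ i, ENNReal.ofReal (W i) * ∫⁻ t in Set.Icc (-P) P,
      ENNReal.ofReal (‖DB (lam i) b r (σ + (t + τ) * Complex.I)‖ ^ 2) ≤
    ENNReal.ofReal (K * (2 : ℝ) ^ ((r : ℝ) * (1 - 2 * σ)))) →
  ∀ t0 z0 z A : ℝ, 1 ≤ A →
    ∑ i, W i * (((Finset.Icc ⌈t0 - P⌉ ⌊t0 + P⌋).filter (fun k : ℤ => ∃ s : ℂ, 1 / 2 ≤ s.re ∧
      s.re ≤ B ∧ |s.im - k| ≤ B ∧ ¬ Dp m (lam i) (N * P ^ m) z0 z A s)).card : ℝ) ≤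
      C * ((N : ℝ) * P) ^ ε * K / A ^ 2

open Classical in
/-- the pairs of a form and a window with a large value of the twisted L-function -/
def T_BLT : Prop := ∀ (m : ℕ) (d B ε : ℝ), 1 ≤ m → 0 < d → d ≤ 1 → 1 ≤ B → 0 < ε → ∃ C : ℝ, 0 < C ∧
  ∀ (N : ℕ) [NeZero N] (T : ℕ → Finset (ZM m)) (D : Set (V m)), SysZ m N T D →
  ∀ B0 H U : ℝ, 1 ≤ B0 → 1 ≤ H → H ≤ U → ∀ (S : Type) [Fintype S] [DecidableEq S]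
    (F : S → Mat m → VN m N → ℂ) (lam : S → ℕ → ℂ) (W : S → ℝ), Fam T D H F lam W →
  ∀ (c : ℕ → ℂ) (M : S → ℕ) [∀ i, NeZero (M i)] (G : ∀ i, Mat m → VN m (M i) → ℂ)
    (lamG : S → ℕ → ℂ), (∀ n, ‖c n‖ ≤ 1) → Tw m T D B0 U c lam M G lamG →
  ∀ L : S → ℂ → ℂ, (∀ i, IsL m 1 (lamG i) (L i)) → ∀ t0 : ℝ, H + |t0| ≤ U → ∀ A : ℝ, 1 ≤ A →
    ∑ i, W i * (((Finset.Icc ⌈t0 - H⌉ ⌊t0 + H⌋).filter (fun k : ℤ => ∃ s : ℂ, 1 / 2 + d ≤ s.re ∧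
      s.re ≤ B ∧ |s.im - k| ≤ B ∧ A < ‖L i s‖)).card : ℝ) ≤
      C * ((N : ℝ) * B0 * U) ^ ε * Q3 m N B0 H U / A ^ 2

open Classical in
/-- one level: few pairs of a form and a window with a large or a small value of the twisted L-function to the
right of the critical line -/
def T_Z1T : Prop := ∀ (m : ℕ) (d e : ℝ), 1 ≤ m → 0 < d → 0 < e → ∃ a : ℝ, 0 < a ∧
  ∀ ε : ℝ, 0 < ε → ∃ C : ℝ, 0 < C ∧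
  ∀ (N : ℕ) [NeZero N] (T : ℕ → Finset (ZM m)) (D : Set (V m)), SysZ m N T D →
  ∀ B0 H U : ℝ, 1 ≤ B0 → 1 ≤ H → H ≤ U → ∀ (S : Type) [Fintype S] [DecidableEq S]
    (F : S → Mat m → VN m N → ℂ) (lam : S → ℕ → ℂ) (W : S → ℝ), Fam T D H F lam W →
  ∀ (c : ℕ → ℂ) (M : S → ℕ) [∀ i, NeZero (M i)] (G : ∀ i, Mat m → VN m (M i) → ℂ)
    (lamG : S → ℕ → ℂ), (∀ n, ‖c n‖ ≤ 1) → Tw m T D B0 U c lam M G lamG →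
  ∀ L : S → ℂ → ℂ, (∀ i, IsL m 1 (lamG i) (L i)) → ∀ t0 : ℝ, H + |t0| ≤ U →
    ∑ i, W i * (((Finset.Icc ⌈t0 - H⌉ ⌊t0 + H⌋).filter (fun k : ℤ => ∃ s : ℂ, 1 / 2 + d ≤ s.re ∧
      |s.im - k| ≤ 1 ∧ (‖L i s‖ < ((N : ℝ) * H ^ m) ^ (-e) ∨
        ((N : ℝ) * H ^ m) ^ e < ‖L i s‖))).card : ℝ) ≤
      C * ((N : ℝ) * B0 * U) ^ ε * Q3 m N B0 H U * ((N : ℝ) * H ^ m) ^ (-a)

/-- the universal family of the twists: power savings at every level when `N Q ^ m` is not small against `X`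
give a power saving in the sum over the levels. (`v` may depend on `X`.) -/
def T_UNZ : Prop := ∀ (m : ℕ) (a : ℝ), 1 ≤ m → 0 < a → ∃ a' ε C : ℝ, 0 < a' ∧ 0 < ε ∧ 0 < C ∧
  ∀ (C1 X : ℝ), 0 ≤ C1 → 1 ≤ X → ∀ (S : ℕ → Type) [∀ N, Fintype (S N)] (P w v : ∀ N : ℕ, S N → ℝ),
  (∀ N : ℕ, 1 ≤ N → ∀ i, 1 ≤ P N i ∧ 1 ≤ w N i ∧ w N i ≤ P N i ^ (m * (m - 1) / 2) ∧ 0 ≤ v N i ∧
    v N i ≤ 1) →
  (∀ N : ℕ, 1 ≤ N → ∀ Q : ℝ, 1 ≤ Q →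
    ∑ i ∈ Finset.univ.filter (fun i : S N => P N i ≤ Q), w N i ≤
      C1 * ((N : ℝ) * Q) ^ ε * ((N : ℝ) ^ m * Q ^ (m ^ 2))) →
  (∀ N : ℕ, 1 ≤ N → (N : ℝ) ≤ X → ∀ Q : ℝ, 1 ≤ Q → Q ≤ X ^ (2 : ℝ) →
    ∑ i ∈ Finset.univ.filter (fun i : S N => P N i ≤ Q), w N i * v N i ≤
      C1 * X ^ ε * ((N : ℝ) ^ m * Q ^ (m ^ 2) + ((N : ℝ) * X * Q ^ m) ^ ((m : ℝ) / 2)) *
        ((N : ℝ) * Q ^ m) ^ (-a)) →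
    ∑ N ∈ Finset.Icc 1 ⌊X⌋₊, ∑ i ∈ Finset.univ.filter
      (fun i : S N => (N : ℝ) ^ (m + 1) * P N i ^ (m ^ 2) ≤ w N i * X ^ (m + 1)), v N i ≤
      C * C1 * X ^ ((m : ℝ) + 1 - a')

end Pool.Agent.H31.CZ
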